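import Mathlib

/-!
DUAL_80, section 1 (helper80): the Schwarz lemma in a cone with a small disc at the origin (helper41): a function with a
zero of the order K at 0, bounded by A in the domain, is at most A exp (- K c N ^ (-a)) at 1. Mathlib only.
-/

set_option autoImplicit false

namespace HexObs

namespace DUA80

open Complex Metric Set Topology Filter

/-- the disc of radius 1 / N with the truncated cone -/
def Om (al b : ℝ) (N : ℕ) : Set ℂ :=
  {t | ‖t‖ < 1 / N} ∪ {t | 0 < t.re ∧ t.re < 1 + b ∧ |t.im| < al * t.re}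

lemma Om_open (al b : ℝ) (N : ℕ) : IsOpen (Om al b N) := by
  refine IsOpen.union (isOpen_lt continuous_norm continuous_const) ?_
  refine IsOpen.inter (isOpen_lt continuous_const continuous_re) (IsOpen.inter (isOpen_lt continuous_re continuous_const) ?_)
  exact isOpen_lt (continuous_abs.comp continuous_im) (continuous_const.mul continuous_re)

/-- three circles with the radii r, 2 r, 4 r -/
lemma three {f : ℂ → ℂ} {U : Set ℂ} (hU : IsOpen U) (hf : DifferentiableOn ℂ f U) {z0 : ℂ} {r A s : ℝ} (hr : 0 < r)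
    (hs0 : 0 ≤ s) (hball : closedBall z0 (4 * r) ⊆ U) (hb : ∀ z ∈ closedBall z0 (4 * r), ‖f z‖ ≤ A)
    (hs : ∀ z ∈ closedBall z0 r, ‖f z‖ ≤ A * Real.exp (-s)) :
    ∀ z ∈ closedBall z0 (2 * r), ‖f z‖ ≤ A * Real.exp (-(s / 2)) := by
  intro z hz
  have hA0 : 0 ≤ A := (norm_nonneg _).trans (hb z0 (mem_closedBall_self (by linarith)))
  by_cases h1 : dist z z0 ≤ r
  · refine (hs z (mem_closedBall.2 h1)).trans (mul_le_mul_of_nonneg_left (Real.exp_le_exp.2 (by linarith)) hA0)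
  rw [not_le] at h1
  rw [mem_closedBall] at hz
  rcases hA0.lt_or_eq with hA | hA
  swap
  · have h2 := hb z (mem_closedBall.2 (by linarith))
    rw [← hA] at h2 ⊢
    simpa using h2
  have hne : z - z0 ≠ 0 := by
    intro h
    rw [sub_eq_zero.1 h, dist_self] at h1
    linarith
  obtain ⟨w, hw⟩ : ∃ w, w = Complex.log (z - z0) := ⟨_, rfl⟩
  have hew : Complex.exp w = z - z0 := by rw [hw, Complex.exp_log hne]
  have hwre : w.re = Real.log (dist z z0) := by rw [hw, Complex.log_re, dist_eq_norm]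
  obtain ⟨F, hF⟩ : ∃ F : ℂ → ℂ, F = fun v => f (z0 + Complex.exp v) := ⟨_, rfl⟩
  have hlu : Real.log r < Real.log (4 * r) := Real.log_lt_log hr (by linarith)
  have hin : ∀ v : ℂ, v.re ≤ Real.log (4 * r) → z0 + Complex.exp v ∈ closedBall z0 (4 * r) := by
    intro v hv
    rw [mem_closedBall, dist_eq_norm, add_sub_cancel_left, Complex.norm_exp]
    calc Real.exp v.re ≤ Real.exp (Real.log (4 * r)) := Real.exp_le_exp.2 hv
      _ = 4 * r := Real.exp_log (by linarith)
  have hdiff : ∀ v : ℂ, v.re ≤ Real.log (4 * r) → DifferentiableAt ℂ F v := by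
    intro v hv
    rw [hF]
    have h2 : DifferentiableAt ℂ f (z0 + Complex.exp v) :=
      (hf _ (hball (hin v hv))).differentiableAt (hU.mem_nhds (hball (hin v hv)))
    exact h2.comp v ((differentiableAt_const _).add Complex.differentiable_exp.differentiableAt)
  have hcl : closure (HadamardThreeLines.verticalStrip (Real.log r) (Real.log (4 * r))) ⊆
      HadamardThreeLines.verticalClosedStrip (Real.log r) (Real.log (4 * r)) := by
    refine closure_minimal ?_ (isClosed_Icc.preimage continuous_re)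
    intro v hv
    exact ⟨hv.1.le, hv.2.le⟩
  have hd : DiffContOnCl ℂ F (HadamardThreeLines.verticalStrip (Real.log r) (Real.log (4 * r))) := by
    refine DifferentiableOn.diffContOnCl fun v hv => (hdiff v (hcl hv).2).differentiableWithinAt
  have hwm : w ∈ HadamardThreeLines.verticalClosedStrip (Real.log r) (Real.log (4 * r)) := by
    constructor
    · rw [hwre]
      exact Real.log_le_log hr h1.le
    · rw [hwre]
      exact Real.log_le_log (hr.trans h1) (by linarith)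
  have h3 := HadamardThreeLines.norm_le_interp_of_mem_verticalClosedStrip' (f := F) (z := w) (a := A * Real.exp (-s))
    (b := A) hlu hwm hd
    ⟨A, by
      rintro _ ⟨v, hv, rfl⟩
      rw [Function.comp_apply, hF]
      exact hb _ (hin v hv.2)⟩
    (by
      intro v hv
      rw [mem_preimage, mem_singleton_iff] at hv
      rw [hF]
      refine hs _ ?_
      rw [mem_closedBall, dist_eq_norm, add_sub_cancel_left, Complex.norm_exp, hv, Real.exp_log hr])
    (by
      intro v hv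
      rw [mem_preimage, mem_singleton_iff] at hv
      rw [hF]
      exact hb _ (hin v hv.le))
  have h4 : F w = f z := by
    rw [hF]
    show f (z0 + Complex.exp w) = f z
    rw [hew]
    congr 1
    ring
  rw [h4] at h3
  refine h3.trans ?_
  obtain ⟨t, ht⟩ : ∃ t, t = (w.re - Real.log r) / (Real.log (4 * r) - Real.log r) := ⟨_, rfl⟩
  rw [← ht]
  have hl2 : 0 < Real.log 2 := Real.log_pos one_lt_two
  have h5 : Real.log (4 * r) - Real.log r = 2 * Real.log 2 := by
    rw [Real.log_mul (by norm_num) hr.ne', show (4 : ℝ) = 2 ^ 2 by norm_num, Real.log_pow]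
    push_cast
    ring
  have h6 : t ≤ 1 / 2 := by
    rw [ht, h5, div_le_iff₀ (by positivity), hwre]
    have h7 : Real.log (dist z z0) ≤ Real.log (2 * r) := Real.log_le_log (hr.trans h1) hz
    rw [Real.log_mul (by norm_num) hr.ne'] at h7
    linarith
  calc (A * Real.exp (-s)) ^ (1 - t) * A ^ t = A * Real.exp (-s * (1 - t)) := by
        rw [Real.mul_rpow hA.le (Real.exp_pos _).le, ← Real.exp_mul]
        calc A ^ (1 - t) * Real.exp (-s * (1 - t)) * A ^ t = (A ^ (1 - t) * A ^ t) * Real.exp (-s * (1 - t)) := by ring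
          _ = A * Real.exp (-s * (1 - t)) := by
              rw [← Real.rpow_add hA]
              simp
    _ ≤ A * Real.exp (-(s / 2)) := by
        refine mul_le_mul_of_nonneg_left (Real.exp_le_exp.2 ?_) hA.le
        nlinarith

/-- the small disc -/
lemma small {f : ℂ → ℂ} {N K : ℕ} {A M : ℝ} (hN : 1 ≤ N) (hf : DifferentiableOn ℂ f {t | ‖t‖ < 1 / N})
    (hA : ∀ t : ℂ, ‖t‖ < 1 / N → ‖f t‖ ≤ A) (hM : ∀ t : ℂ, ‖t‖ < 1 / N → ‖f t‖ ≤ M * ‖t‖ ^ K) :
    ∀ t : ℂ, ‖t‖ ≤ 1 / (4 * N) → ‖f t‖ ≤ A * Real.exp (-(K : ℝ)) := by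
  intro t ht
  have hN0 : (0 : ℝ) < N := by exact_mod_cast (show 0 < N by omega)
  have hA0 : 0 ≤ A := (norm_nonneg _).trans (hA 0 (by rw [norm_zero]; positivity))
  obtain ⟨F, hF⟩ : ∃ F : ℂ → ℂ, F = fun t => f t / t ^ K := ⟨_, rfl⟩
  obtain ⟨G, hG⟩ : ∃ G, G = Function.update F 0 (limUnder (nhdsWithin 0 {0}ᶜ) F) := ⟨_, rfl⟩
  have hopen : IsOpen {t : ℂ | ‖t‖ < 1 / N} := isOpen_lt continuous_norm continuous_const
  have h0 : (0 : ℂ) ∈ {t : ℂ | ‖t‖ < 1 / N} := by
    rw [mem_ofPred_eq, norm_zero]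
    positivity
  have hGd : DifferentiableOn ℂ G {t : ℂ | ‖t‖ < 1 / N} := by
    rw [hG]
    refine Complex.differentiableOn_update_limUnder_of_bddAbove (hopen.mem_nhds h0) ?_ ?_
    · rw [hF]
      refine (hf.mono sdiff_subset).div (differentiable_pow K).differentiableOn ?_
      rintro x ⟨_, hx⟩
      exact pow_ne_zero _ hx
    · refine ⟨|M|, ?_⟩
      rintro _ ⟨x, ⟨hx, hx0⟩, rfl⟩
      rw [mem_singleton_iff] at hx0
      rw [Function.comp_apply, hF]
      have hp : 0 < ‖x‖ ^ K := pow_pos (norm_pos_iff.2 hx0) K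
      simp only [norm_div, norm_pow]
      rw [div_le_iff₀ hp]
      exact (hM x hx).trans (mul_le_mul_of_nonneg_right (le_abs_self M) hp.le)
  obtain ⟨ρ, hρ⟩ : ∃ ρ : ℝ, ρ = 3 / (4 * N) := ⟨_, rfl⟩
  have hρ0 : 0 < ρ := by rw [hρ]; positivity
  have hρ1 : ρ < 1 / N := by
    rw [hρ, div_lt_div_iff₀ (by positivity) hN0]
    linarith
  have htρ : ‖t‖ ≤ ρ / 3 := by
    refine ht.trans (le_of_eq ?_)
    rw [hρ]
    field_simp
  have hGb : ∀ x : ℂ, ‖x‖ ≤ ρ → ‖G x‖ ≤ A / ρ ^ K := by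
    intro x hx
    refine Complex.norm_le_of_forall_mem_frontier_norm_le (U := ball 0 ρ) isBounded_ball ?_ ?_ ?_
    · refine DifferentiableOn.diffContOnCl (hGd.mono ?_)
      rw [closure_ball 0 hρ0.ne']
      intro y hy
      rw [mem_closedBall, dist_zero_right] at hy
      exact hy.trans_lt hρ1
    · intro y hy
      rw [frontier_ball 0 hρ0.ne', mem_sphere, dist_zero_right] at hy
      have hy0 : y ≠ 0 := by
        intro h
        rw [h, norm_zero] at hy
        linarith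
      rw [hG, Function.update_of_ne hy0, hF]
      simp only [norm_div, norm_pow, hy]
      exact div_le_div_of_nonneg_right (hA y (hy ▸ hρ1)) (by positivity)
    · rw [closure_ball 0 hρ0.ne', mem_closedBall, dist_zero_right]
      exact hx
  have he : (1 : ℝ) / 3 ≤ Real.exp (-1) := by
    rw [Real.exp_neg, one_div]
    exact inv_anti₀ (Real.exp_pos 1) (Real.exp_one_lt_d9.le.trans (by norm_num))
  by_cases ht0 : t = 0
  · rcases Nat.eq_zero_or_pos K with hK | hK
    · subst hK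
      rw [Nat.cast_zero, neg_zero, Real.exp_zero, mul_one]
      exact hA t (ht0 ▸ h0)
    · have := hM t (ht0 ▸ h0)
      rw [ht0, norm_zero, zero_pow (by omega), mul_zero] at this
      rw [ht0]
      exact this.trans (by positivity)
  · have hp : 0 < ‖t‖ ^ K := pow_pos (norm_pos_iff.2 ht0) K
    have h1 : ‖f t‖ = ‖G t‖ * ‖t‖ ^ K := by
      rw [hG, Function.update_of_ne ht0, hF]
      simp only [norm_div, norm_pow]
      rw [div_mul_cancel₀ _ hp.ne']
    rw [h1]
    calc ‖G t‖ * ‖t‖ ^ K ≤ A / ρ ^ K * (ρ / 3) ^ K := by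
          refine mul_le_mul (hGb t (htρ.trans (by linarith))) (pow_le_pow_left₀ (norm_nonneg _) htρ K) hp.le (by positivity)
      _ = A * (1 / 3) ^ K := by
          rw [div_pow, div_pow, one_pow]
          field_simp
      _ ≤ A * Real.exp (-1) ^ K := by
          refine mul_le_mul_of_nonneg_left (pow_le_pow_left₀ (by norm_num) he K) hA0
      _ = A * Real.exp (-(K : ℝ)) := by
          rw [← Real.exp_nat_mul]
          congr 2
          ring

/-- **the cone Schwarz lemma** -/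
theorem cone_schwarz (a0 b : ℝ) (ha0' : 0 < a0) (ha1 : a0 ≤ 1) (hb : 0 < b) : ∃ a c : ℝ, 0 < c ∧ 0 ≤ a ∧
    ∀ (N K : ℕ) (f : ℂ → ℂ) (A M : ℝ), 1 ≤ N → DifferentiableOn ℂ f (Om a0 b N) → (∀ t ∈ Om a0 b N, ‖f t‖ ≤ A) →
      (∀ t : ℂ, ‖t‖ < 1 / N → ‖f t‖ ≤ M * ‖t‖ ^ K) → ‖f 1‖ ≤ A * Real.exp (-(K * (c * (N : ℝ) ^ (-a)))) := by
  obtain ⟨al, hal'⟩ : ∃ al : ℝ, al = min a0 b := ⟨_, rfl⟩
  have hal : 0 < al := by rw [hal']; exact lt_min ha0' hb
  have hala : al ≤ a0 := by rw [hal']; exact min_le_left _ _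
  have halb : al ≤ b := by rw [hal']; exact min_le_right _ _
  have hal1 : al ≤ 1 := hala.trans ha1
  obtain ⟨β, hβ⟩ : ∃ β : ℝ, β = al / 11 := ⟨_, rfl⟩
  have hβ0 : 0 < β := by rw [hβ]; positivity
  have hlb : 0 < Real.log (1 + β) := Real.log_pos (by linarith)
  have hl2 : 0 < Real.log 2 := Real.log_pos one_lt_two
  obtain ⟨a, ha⟩ : ∃ a : ℝ, a = Real.log 2 / Real.log (1 + β) := ⟨_, rfl⟩
  have ha0 : 0 < a := by rw [ha]; positivity
  refine ⟨a, 1 / 2 * (8 : ℝ) ^ (-a), by positivity, ha0.le, fun N K f A M hN hf hA hM => ?_⟩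
  have hN0 : (0 : ℝ) < N := by exact_mod_cast (show 0 < N by omega)
  have hN1 : (1 : ℝ) ≤ N := by exact_mod_cast hN
  have hA0 : 0 ≤ A := (norm_nonneg _).trans (hA 0 (Or.inl (by
    rw [mem_ofPred_eq, norm_zero]
    positivity)))
  obtain ⟨J, hJ⟩ : ∃ J : ℕ, J = ⌈Real.log (8 * N) / Real.log (1 + β)⌉₊ := ⟨_, rfl⟩
  have hJ1 : Real.log (8 * N) / Real.log (1 + β) ≤ J := by rw [hJ]; exact Nat.le_ceil _
  have hJ2 : (J : ℝ) ≤ Real.log (8 * N) / Real.log (1 + β) + 1 := by
    rw [hJ]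
    refine (Nat.ceil_lt_add_one (div_nonneg (Real.log_nonneg (by linarith)) hlb.le)).le
  have hJ3 : 8 * (N : ℝ) ≤ (1 + β) ^ J := by
    rw [div_le_iff₀ hlb] at hJ1
    calc 8 * (N : ℝ) = Real.exp (Real.log (8 * N)) := (Real.exp_log (by positivity)).symm
      _ ≤ Real.exp (J * Real.log (1 + β)) := Real.exp_le_exp.2 hJ1
      _ = (1 + β) ^ J := by rw [Real.exp_nat_mul, Real.exp_log (by linarith)]
  obtain ⟨t, ht⟩ : ∃ t : ℕ → ℝ, t = fun j => (1 + β) ^ j / (1 + β) ^ J := ⟨_, rfl⟩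
  have hpJ : 0 < (1 + β) ^ J := by positivity
  have ht0 : ∀ j, 0 < t j := fun j => by rw [ht]; positivity
  have htJ : ∀ j, j ≤ J → t j ≤ 1 := fun j hj => by
    rw [ht]
    show (1 + β) ^ j / (1 + β) ^ J ≤ 1
    rw [div_le_one hpJ]
    exact pow_le_pow_right₀ (by linarith) hj
  have hts : ∀ j, t (j + 1) = (1 + β) * t j := fun j => by
    rw [ht]
    show (1 + β) ^ (j + 1) / (1 + β) ^ J = (1 + β) * ((1 + β) ^ j / (1 + β) ^ J)
    rw [pow_succ]
    ring
  have hsub : ∀ j, j ≤ J → closedBall (t j : ℂ) (4 * (al * t j / 10)) ⊆ Om a0 b N := by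
    intro j hj z hz
    right
    rw [mem_closedBall, dist_eq_norm] at hz
    have h1 := (Complex.abs_re_le_norm (z - t j)).trans hz
    have h2 := (Complex.abs_im_le_norm (z - t j)).trans hz
    rw [Complex.sub_re, Complex.ofReal_re] at h1
    rw [Complex.sub_im, Complex.ofReal_im, sub_zero] at h2
    rw [abs_le] at h1
    have h3 := ht0 j
    have h4 := htJ j hj
    have h5 : al * t j ≤ t j := by nlinarith
    have h6 : 0 < al * t j := mul_pos hal h3
    have h7 : al * t j ≤ al := by nlinarith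
    refine ⟨by linarith [h1.1], by linarith [h1.2], h2.trans_lt ?_⟩
    have h8 : t j - 4 * (al * t j / 10) ≤ z.re := by linarith [h1.1]
    have h9 : al * (t j - 4 * (al * t j / 10)) ≤ al * z.re := mul_le_mul_of_nonneg_left h8 hal.le
    have h10 : 0 < z.re := by linarith [h1.1]
    have h11 : al * z.re ≤ a0 * z.re := mul_le_mul_of_nonneg_right hala h10.le
    nlinarith
  have hstep : ∀ j, j ≤ J → ∀ z ∈ closedBall (t j : ℂ) (al * t j / 10), ‖f z‖ ≤ A * Real.exp (-((K : ℝ) / 2 ^ j)) := by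
    intro j
    induction j with
    | zero =>
      intro _ z hz
      rw [pow_zero, div_one]
      refine small hN (hf.mono fun x hx => Or.inl hx) (fun x hx => hA x (Or.inl hx)) hM z ?_
      rw [mem_closedBall, dist_eq_norm] at hz
      have h1 : t 0 ≤ 1 / (8 * N) := by
        rw [ht]
        show (1 + β) ^ 0 / (1 + β) ^ J ≤ 1 / (8 * N)
        rw [pow_zero]
        exact one_div_le_one_div_of_le (by positivity) hJ3
      have h2 : ‖z‖ ≤ ‖z - t 0‖ + ‖(t 0 : ℂ)‖ := by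
        calc ‖z‖ = ‖(z - t 0) + t 0‖ := by rw [sub_add_cancel]
          _ ≤ _ := norm_add_le _ _
      rw [Complex.norm_real, Real.norm_of_nonneg (ht0 0).le] at h2
      have h3 : al * t 0 ≤ t 0 := by nlinarith [ht0 0]
      have h4 : (1 : ℝ) / (4 * N) = 2 * (1 / (8 * N)) := by
        field_simp
        norm_num
      rw [h4]
      linarith [ht0 0]
    | succ j ih =>
      intro hj z hz
      have h1 := three (s := (K : ℝ) / 2 ^ j) (Om_open a0 b N) hf (r := al * t j / 10) (by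
        have := ht0 j
        positivity) (by positivity) (hsub j (by omega)) (fun z hz => hA z (hsub j (by omega) hz)) (ih (by omega)) z (by
          rw [mem_closedBall] at hz ⊢
          have h2 : dist z (t j : ℂ) ≤ dist z (t (j + 1) : ℂ) + dist (t (j + 1) : ℂ) (t j : ℂ) := dist_triangle _ _ _
          have h3 : dist (t (j + 1) : ℂ) (t j : ℂ) = β * t j := by
            rw [dist_eq_norm, ← Complex.ofReal_sub, Complex.norm_real, hts, Real.norm_of_nonneg] <;>
            nlinarith [ht0 j]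
          have h4 : al * t (j + 1) / 10 = (1 + β) * (al * t j / 10) := by
            rw [hts]
            ring
          rw [h4] at hz
          have h5 := ht0 j
          have h6 : β ≤ 1 / 11 := by rw [hβ]; linarith
          have h7 : β * t j = 10 / 11 * (al * t j / 10) := by rw [hβ]; ring
          have h8 : 0 < al * t j / 10 := by positivity
          nlinarith)
      have h2 : (K : ℝ) / 2 ^ (j + 1) = (K : ℝ) / 2 ^ j / 2 := by
        rw [pow_succ]
        field_simp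
      rw [h2]
      exact h1
  have h1 := hstep J le_rfl 1 (by
    have : t J = 1 := by
      rw [ht]
      exact div_self hpJ.ne'
    rw [this, Complex.ofReal_one]
    exact mem_closedBall_self (by positivity))
  refine h1.trans (mul_le_mul_of_nonneg_left (Real.exp_le_exp.2 ?_) hA0)
  rw [neg_le_neg_iff, div_eq_mul_inv]
  refine mul_le_mul_of_nonneg_left ?_ (Nat.cast_nonneg K)
  have h2 : ((2 : ℝ) ^ J) ≤ 2 * (8 * (N : ℝ)) ^ a := by
    calc (2 : ℝ) ^ J = Real.exp (J * Real.log 2) := by rw [Real.exp_nat_mul, Real.exp_log (by norm_num)]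
      _ ≤ Real.exp ((Real.log (8 * N) / Real.log (1 + β) + 1) * Real.log 2) :=
          Real.exp_le_exp.2 (mul_le_mul_of_nonneg_right hJ2 hl2.le)
      _ = Real.exp (Real.log 2) * Real.exp (Real.log (8 * N) * a) := by
          rw [← Real.exp_add, ha]
          congr 1
          ring
      _ = 2 * (8 * (N : ℝ)) ^ a := by
          rw [Real.exp_log (by norm_num), Real.rpow_def_of_pos (by positivity)]
  calc 1 / 2 * (8 : ℝ) ^ (-a) * (N : ℝ) ^ (-a) = (2 * (8 * (N : ℝ)) ^ a)⁻¹ := by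
        rw [Real.rpow_neg (by norm_num), Real.rpow_neg hN0.le, Real.mul_rpow (by norm_num) hN0.le, mul_inv, mul_inv]
        ring
    _ ≤ ((2 : ℝ) ^ J)⁻¹ := inv_anti₀ (by positivity) h2

/-- the form used: two functions that agree to the order K at 0 -/
theorem cone_diff (a0 b : ℝ) (ha0 : 0 < a0) (ha1 : a0 ≤ 1) (hb : 0 < b) : ∃ a c : ℝ, 0 < c ∧ 0 ≤ a ∧
    ∀ (N K : ℕ) (f g : ℂ → ℂ) (A M : ℝ), 1 ≤ N → DifferentiableOn ℂ f (Om a0 b N) → DifferentiableOn ℂ g (Om a0 b N) →
      (∀ t ∈ Om a0 b N, ‖f t‖ ≤ A) → (∀ t ∈ Om a0 b N, ‖g t‖ ≤ A) →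
      (∀ t : ℂ, ‖t‖ < 1 / N → ‖f t - g t‖ ≤ M * ‖t‖ ^ K) →
        ‖f 1 - g 1‖ ≤ 2 * A * Real.exp (-(K * (c * (N : ℝ) ^ (-a)))) := by
  obtain ⟨a, c, hc, ha, h⟩ := cone_schwarz a0 b ha0 ha1 hb
  refine ⟨a, c, hc, ha, fun N K f g A M hN hf hg hA hB hM => ?_⟩
  refine h N K (fun t => f t - g t) (2 * A) M hN (hf.sub hg) (fun t ht => ?_) hM
  calc ‖f t - g t‖ ≤ ‖f t‖ + ‖g t‖ := norm_sub_le _ _
    _ ≤ 2 * A := by linarith [hA t ht, hB t ht]

/-- a zero of the order K in the form t ^ K g t with a continuous g gives the bound, on a smaller disc -/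
theorem zero_bound {f g : ℂ → ℂ} {N K : ℕ} (hN : 1 ≤ N) (hg : ContinuousOn g {t | ‖t‖ < 1 / N})
    (hfg : ∀ t : ℂ, ‖t‖ < 1 / N → f t = t ^ K * g t) :
    ∃ M : ℝ, ∀ t : ℂ, ‖t‖ < 1 / ((2 * N : ℕ) : ℝ) → ‖f t‖ ≤ M * ‖t‖ ^ K := by
  have hN0 : (0 : ℝ) < N := by exact_mod_cast (show 0 < N by omega)
  have hlt : 1 / (2 * (N : ℝ)) < 1 / N := one_div_lt_one_div_of_lt hN0 (by linarith)
  obtain ⟨M, hM⟩ := (isCompact_closedBall (0 : ℂ) (1 / (2 * N))).exists_bound_of_continuousOn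
    (hg.mono fun t ht => by
      rw [mem_closedBall, dist_zero_right] at ht
      exact ht.trans_lt hlt)
  refine ⟨M, fun t ht => ?_⟩
  push_cast at ht
  rw [hfg t (ht.trans hlt), norm_mul, norm_pow, mul_comm]
  exact mul_le_mul_of_nonneg_right (hM t (by
    rw [mem_closedBall, dist_zero_right]
    exact ht.le)) (by positivity)

lemma Om_mono (a0 b : ℝ) {N N' : ℕ} (hN : 1 ≤ N) (h : N ≤ N') : Om a0 b N' ⊆ Om a0 b N := by
  rintro t (ht | ht)
  · left
    have hN0 : (0 : ℝ) < N := by exact_mod_cast (show 0 < N by omega)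
    exact lt_of_lt_of_le ht (one_div_le_one_div_of_le hN0 (by exact_mod_cast h))
  · exact Or.inr ht

/-- **the form of DUAL_80**: f - g = t ^ K h in the small disc -/
theorem cone_diff' (a0 b : ℝ) (ha0 : 0 < a0) (ha1 : a0 ≤ 1) (hb : 0 < b) : ∃ a c : ℝ, 0 < c ∧ 0 ≤ a ∧
    ∀ (N K : ℕ) (f g h : ℂ → ℂ) (A : ℝ), 1 ≤ N → DifferentiableOn ℂ f (Om a0 b N) → DifferentiableOn ℂ g (Om a0 b N) →
      (∀ t ∈ Om a0 b N, ‖f t‖ ≤ A) → (∀ t ∈ Om a0 b N, ‖g t‖ ≤ A) → ContinuousOn h {t | ‖t‖ < 1 / N} →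
      (∀ t : ℂ, ‖t‖ < 1 / N → f t - g t = t ^ K * h t) →
        ‖f 1 - g 1‖ ≤ 2 * A * Real.exp (-(K * (c * (N : ℝ) ^ (-a)))) := by
  obtain ⟨a, c, hc, ha, H⟩ := cone_diff a0 b ha0 ha1 hb
  refine ⟨a, c * (2 : ℝ) ^ (-a), by positivity, ha, fun N K f g h A hN hf hg hA hB hh hfg => ?_⟩
  obtain ⟨M, hM⟩ := zero_bound (f := fun t => f t - g t) hN hh hfg
  have hs := Om_mono a0 b hN (show N ≤ 2 * N by omega)
  have h1 := H (2 * N) K f g A M (by omega) (hf.mono hs) (hg.mono hs) (fun t ht => hA t (hs ht)) (fun t ht => hB t (hs ht)) hM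
  have e1 : c * (2 : ℝ) ^ (-a) * (N : ℝ) ^ (-a) = c * (((2 * N : ℕ) : ℝ)) ^ (-a) := by
    push_cast
    rw [Real.mul_rpow (by norm_num) (Nat.cast_nonneg N), mul_assoc]
  rw [e1]
  exact h1

end DUA80

end HexObs
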